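import Mathlib

/-!
# Bent functions that cannot be moved to the extremal value distribution of type (-)

For every `m ≥ 7` there is a bent function `F : 𝔽₂^{2m} → 𝔽₂^m` such that `F + L` is almost
balanced of type (-) for no linear `L`.
-/

namespace Pool.Agent.Results.MP_7d7944_co.NoTypeMinus

open Finset

/-- `F : 𝔽₂ⁿ → 𝔽₂ᵐ` is bent: every derivative in a nonzero direction is balanced. -/
def IsBent {n m : ℕ} (F : (Fin n → ZMod 2) → (Fin m → ZMod 2)) : Prop :=
  ∀ a : Fin n → ZMod 2, a ≠ 0 → ∀ b : Fin m → ZMod 2,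
    (univ.filter (fun x => F (x + a) + F x = b)).card = 2 ^ (n - m)

/-- `F : 𝔽₂ⁿ → 𝔽₂ᵐ` is almost balanced of type (-). -/
def IsTypeMinus {n m : ℕ} (F : (Fin n → ZMod 2) → (Fin m → ZMod 2)) : Prop :=
  ∃ α : Fin m → ZMod 2,
    ((univ.filter (fun x => F x = α)).card : ℤ) = 2 ^ (n - m) - 2 ^ (n / 2) + 2 ^ (n / 2 - m) ∧
    ∀ β : Fin m → ZMod 2, β ≠ α →
      ((univ.filter (fun x => F x = β)).card : ℤ) = 2 ^ (n - m) + 2 ^ (n / 2 - m)

section Field

variable {K : Type} [Field K] [Fintype K] [DecidableEq K] [Algebra (ZMod 2) K]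

set_option linter.unusedSectionVars false

/-- the linear map `x ↦ x y + L(x,0)` -/
def T (L : K × K →ₗ[ZMod 2] K) (y : K) : K →ₗ[ZMod 2] K :=
  LinearMap.mulRight (ZMod 2) y + L ∘ₗ LinearMap.inl (ZMod 2) K K

lemma T_apply (L : K × K →ₗ[ZMod 2] K) (x y : K) : T L y x = x * y + L (x, 0) := by
  simp [T]

/-- the kernel as a finset -/
def ker (L : K × K →ₗ[ZMod 2] K) (y : K) : Finset K := univ.filter (fun x => T L y x = 0)

lemma sum_ker (L : K × K →ₗ[ZMod 2] K) :
    ∑ y : K, (ker L y).card = Fintype.card K + (Fintype.card K - 1) := by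
  have h1 : ∑ y : K, (ker L y).card = ∑ x : K, (univ.filter (fun y => T L y x = 0)).card := by
    simp only [ker, card_filter]
    rw [sum_comm]
  have h2 : ∀ x : K, (univ.filter (fun y => T L y x = 0)).card =
      if x = 0 then Fintype.card K else 1 := by
    intro x
    split_ifs with hx
    · subst hx
      rw [← card_univ]
      congr 1
      apply filter_true_of_mem
      intro y _
      exact map_zero _
    · rw [card_eq_one]
      refine ⟨-(L (x, 0)) / x, ?_⟩
      ext y
      rw [mem_filter, mem_singleton, T_apply, eq_div_iff hx]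
      constructor
      · rintro ⟨_, h⟩
        rw [mul_comm]
        exact eq_neg_of_add_eq_zero_left h
      · intro h
        refine ⟨mem_univ _, ?_⟩
        rw [mul_comm, h]
        ring
  rw [h1, sum_congr rfl (fun x _ => h2 x), ← add_sum_erase univ _ (mem_univ (0 : K)), if_pos rfl]
  congr 1
  rw [sum_congr rfl (fun x hx => if_neg (mem_erase.mp hx).1), sum_const, smul_eq_mul, mul_one,
    card_erase_of_mem (mem_univ _), card_univ]

lemma ker_of_inj {L : K × K →ₗ[ZMod 2] K} {y : K} (h : Function.Injective (T L y)) :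
    (ker L y).card = 1 := by
  rw [card_eq_one]
  refine ⟨0, ?_⟩
  ext x
  rw [ker, mem_filter, mem_singleton]
  constructor
  · rintro ⟨_, hx⟩
    exact h (by rw [hx, map_zero])
  · rintro rfl
    exact ⟨mem_univ _, map_zero _⟩

lemma ker_of_not_inj {L : K × K →ₗ[ZMod 2] K} {y : K} (h : ¬ Function.Injective (T L y)) :
    2 ≤ (ker L y).card := by
  rw [injective_iff_map_eq_zero] at h
  push Not at h
  obtain ⟨x, hx, hx0⟩ := h
  have : ({0, x} : Finset K) ⊆ ker L y := by
    intro z hz
    rw [mem_insert, mem_singleton] at hz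
    rw [ker, mem_filter]
    rcases hz with rfl | rfl
    · exact ⟨mem_univ _, map_zero _⟩
    · exact ⟨mem_univ _, hx⟩
  calc 2 = ({0, x} : Finset K).card := (card_pair (Ne.symm hx0)).symm
    _ ≤ _ := card_le_card this

/-- if exactly one `T L y` is injective then all the others have kernel of size two -/
lemma ker_two {L : K × K →ₗ[ZMod 2] K} {y0 : K} (h0 : Function.Injective (T L y0))
    (h : ∀ y, y ≠ y0 → ¬ Function.Injective (T L y)) (y : K) (hy : y ≠ y0) :
    (ker L y).card = 2 := by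
  have hs := sum_ker L
  rw [← add_sum_erase univ _ (mem_univ y0), ker_of_inj h0,
    ← add_sum_erase (univ.erase y0) _ (mem_erase.mpr ⟨hy, mem_univ y⟩)] at hs
  have h1 : ∑ x ∈ (univ.erase y0).erase y, 2 ≤ ∑ x ∈ (univ.erase y0).erase y, (ker L x).card := by
    apply sum_le_sum
    intro x hx
    exact ker_of_not_inj (h x (mem_erase.mp (mem_erase.mp hx).2).1)
  rw [sum_const, smul_eq_mul, card_erase_of_mem (mem_erase.mpr ⟨hy, mem_univ y⟩),
    card_erase_of_mem (mem_univ _), card_univ] at h1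
  have h2 := ker_of_not_inj (h y hy)
  have h3 : 2 ≤ Fintype.card K := by
    rw [← card_univ]
    calc 2 = ({y, y0} : Finset K).card := (card_pair hy).symm
      _ ≤ _ := card_le_card (subset_univ _)
  omega

/-- values of `g(y)` that avoid solutions -/
def Cv (L : K × K →ₗ[ZMod 2] K) (α y : K) : Finset K :=
  univ.filter (fun c => ∀ x, T L y x + (c + L (0, y)) ≠ α)

lemma card_Cv {m : ℕ} (hK : Fintype.card K = 2 ^ m) (L : K × K →ₗ[ZMod 2] K) (α y : K)
    (h : (ker L y).card = 2) : (Cv L α y).card = 2 ^ (m - 1) := by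
  classical
  have hfr : Module.finrank (ZMod 2) K = m := by
    have h1 := Module.card_eq_pow_finrank (K := ZMod 2) (V := K)
    rw [hK, ZMod.card] at h1
    exact (Nat.pow_right_injective (le_refl 2) h1).symm
  have hker : Module.finrank (ZMod 2) (LinearMap.ker (T L y)) = 1 := by
    have h1 := Module.card_eq_pow_finrank (K := ZMod 2) (V := LinearMap.ker (T L y))
    have h2 : Fintype.card (LinearMap.ker (T L y)) = (ker L y).card := by
      rw [Fintype.card_subtype]
      congr 1
      ext x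
      simp [ker]
    rw [h2, h, ZMod.card] at h1
    exact (Nat.pow_right_injective (le_refl 2) (by simpa using h1)).symm
  have hrn := (T L y).finrank_range_add_finrank_ker
  rw [hker, hfr] at hrn
  have hm : 1 ≤ m := by omega
  have hrange : (univ.filter (fun z => z ∈ LinearMap.range (T L y))).card = 2 ^ (m - 1) := by
    have h1 := Module.card_eq_pow_finrank (K := ZMod 2) (V := LinearMap.range (T L y))
    rw [Fintype.card_subtype, ZMod.card] at h1
    rw [h1]
    congr 1
    omega
  have hcompl : (univ.filter (fun z => z ∉ LinearMap.range (T L y))).card = 2 ^ (m - 1) := by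
    have h1 := card_filter_add_card_filter_not (s := (univ : Finset K))
      (fun z => z ∈ LinearMap.range (T L y))
    rw [hrange, card_univ, hK] at h1
    have h2 : 2 ^ m = 2 * 2 ^ (m - 1) := by
      rw [← pow_succ']
      congr 1
      omega
    omega
  rw [← hcompl]
  apply card_nbij' (fun c => α - (c + L (0, y))) (fun z => α - z - L (0, y))
  · intro c hc
    rw [mem_coe, Cv, mem_filter] at hc
    rw [mem_coe, mem_filter]
    refine ⟨mem_univ _, ?_⟩
    rintro ⟨x, hx⟩
    apply hc.2 x
    rw [hx]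
    ring
  · intro z hz
    rw [mem_coe, mem_filter] at hz
    rw [mem_coe, Cv, mem_filter]
    refine ⟨mem_univ _, ?_⟩
    intro x hx
    apply hz.2
    refine ⟨x, ?_⟩
    have : T L y x + (α - z - L (0, y) + L (0, y)) = T L y x + α - z := by ring
    rw [this] at hx
    have h2 : T L y x - z = 0 := by
      have : T L y x - z = (T L y x + α - z) - α := by ring
      rw [this, hx, sub_self]
    exact sub_eq_zero.mp h2
  · intro c _
    ring
  · intro z _
    ring

/-- the set of `g` for which `x y + g(y) + L(x,y) = α` has exactly one solution -/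
def Gs (L : K × K →ₗ[ZMod 2] K) (α : K) : Finset (K → K) :=
  univ.filter (fun g => (univ.filter (fun p : K × K => p.1 * p.2 + g p.2 + L p = α)).card = 1)

lemma L_split (L : K × K →ₗ[ZMod 2] K) (x y : K) : L (x, y) = L (x, 0) + L (0, y) := by
  rw [← map_add]; simp

lemma mem_Gs {L : K × K →ₗ[ZMod 2] K} {α : K} {g : K → K} (hg : g ∈ Gs L α) :
    ∃ y0, Function.Injective (T L y0) ∧
      ∀ y, y ≠ y0 → ¬ Function.Injective (T L y) ∧ g y ∈ Cv L α y := by
  rw [Gs, mem_filter, card_eq_one] at hg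
  obtain ⟨-, ⟨x0, y0⟩, hs⟩ := hg
  have hsol : ∀ x y, x * y + g y + L (x, y) = α ↔ (x = x0 ∧ y = y0) := by
    intro x y
    have : (x, y) ∈ univ.filter (fun p : K × K => p.1 * p.2 + g p.2 + L p = α) ↔
        (x, y) = (x0, y0) := by rw [hs, mem_singleton]
    rw [mem_filter, Prod.mk.injEq] at this
    simpa using this
  have hrew : ∀ x y, T L y x + (g y + L (0, y)) = x * y + g y + L (x, y) := by
    intro x y
    rw [T_apply, L_split L x y]
    ring
  refine ⟨y0, ?_, ?_⟩
  · rw [injective_iff_map_eq_zero]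
    intro z hz
    have h1 : (x0 + z) * y0 + g y0 + L (x0 + z, y0) = α := by
      rw [← hrew, map_add, hz, add_zero, hrew]
      exact (hsol x0 y0).mpr ⟨rfl, rfl⟩
    have := ((hsol _ _).mp h1).1
    simpa using this
  · intro y hy
    have hC : g y ∈ Cv L α y := by
      rw [Cv, mem_filter]
      refine ⟨mem_univ _, fun x hx => ?_⟩
      rw [hrew] at hx
      exact hy ((hsol x y).mp hx).2
    refine ⟨?_, hC⟩
    intro hinj
    have hsurj := Finite.surjective_of_injective hinj
    obtain ⟨x, hx⟩ := hsurj (α - (g y + L (0, y)))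
    rw [Cv, mem_filter] at hC
    apply hC.2 x
    rw [hx]
    ring

lemma card_Gs {m : ℕ} (hK : Fintype.card K = 2 ^ m) (L : K × K →ₗ[ZMod 2] K) (α : K) :
    (Gs L α).card ≤ 2 ^ m * (2 ^ (m - 1)) ^ (2 ^ m - 1) := by
  classical
  rcases (Gs L α).eq_empty_or_nonempty with h | ⟨g0, hg0⟩
  · rw [h, card_empty]; exact Nat.zero_le _
  obtain ⟨y0, hy0, hyn⟩ := mem_Gs hg0
  have hsub : Gs L α ⊆ Fintype.piFinset (fun y => if y = y0 then univ else Cv L α y) := by
    intro g hg
    rw [Fintype.mem_piFinset]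
    intro y
    obtain ⟨y1, hy1, hyn1⟩ := mem_Gs hg
    have h01 : y1 = y0 := by
      by_contra hne
      exact (hyn y1 hne).1 hy1
    subst h01
    split_ifs with h
    · exact mem_univ _
    · exact (hyn1 y h).2
  refine (card_le_card hsub).trans ?_
  rw [Fintype.card_piFinset, ← mul_prod_erase univ _ (mem_univ y0), if_pos rfl, card_univ, hK]
  apply Nat.mul_le_mul_left
  rw [prod_congr rfl (fun y hy => by
    rw [if_neg (mem_erase.mp hy).1,
      card_Cv hK L α y (ker_two hy0 (fun y hy => (hyn y hy).1) y (mem_erase.mp hy).1)])]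
  rw [prod_const, card_erase_of_mem (mem_univ _), card_univ, hK]

lemma arith (m : ℕ) (hm : 7 ≤ m) : 2 * m * m + m + 1 < 2 ^ m := by
  induction m, hm using Nat.le_induction with
  | base => norm_num
  | succ k hk ih =>
    rw [pow_succ]
    nlinarith

/-- there is `g` such that for no linear `L` and no `α` the equation has exactly one solution -/
lemma exists_g {m : ℕ} (hm : 7 ≤ m) (hK : Fintype.card K = 2 ^ m) :
    ∃ g : K → K, ∀ (L : K × K →ₗ[ZMod 2] K) (α : K), g ∉ Gs L α := by
  classical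
  by_contra hcon
  push Not at hcon
  have : Finite (K × K →ₗ[ZMod 2] K) := Finite.of_injective (fun L => (L : K × K → K))
    (fun L L' h => LinearMap.ext (fun x => congrFun h x))
  let _ : Fintype (K × K →ₗ[ZMod 2] K) := Fintype.ofFinite _
  have hfr : Module.finrank (ZMod 2) K = m := by
    have h1 := Module.card_eq_pow_finrank (K := ZMod 2) (V := K)
    rw [hK, ZMod.card] at h1
    exact (Nat.pow_right_injective (le_refl 2) h1).symm
  have hL : Fintype.card (K × K →ₗ[ZMod 2] K) = 2 ^ (2 * m * m) := by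
    have h1 := Module.card_eq_pow_finrank (K := ZMod 2) (V := K × K →ₗ[ZMod 2] K)
    rw [h1, ZMod.card, Module.finrank_linearMap, Module.finrank_prod, hfr]
    congr 1
    ring
  have hcover : (univ : Finset (K → K)) ⊆
      (univ : Finset ((K × K →ₗ[ZMod 2] K) × K)).biUnion (fun p => Gs p.1 p.2) := by
    intro g _
    obtain ⟨L, α, h⟩ := hcon g
    rw [mem_biUnion]
    exact ⟨(L, α), mem_univ _, h⟩
  have h1 := card_le_card hcover
  have h2 := card_biUnion_le_card_mul (univ : Finset ((K × K →ₗ[ZMod 2] K) × K))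
    (fun p => Gs p.1 p.2) (2 ^ m * (2 ^ (m - 1)) ^ (2 ^ m - 1))
    (fun p _ => card_Gs hK p.1 p.2)
  rw [card_univ, Fintype.card_fun, hK] at h1
  rw [card_univ, Fintype.card_prod, hL, hK] at h2
  have h3 := h1.trans h2
  rw [← pow_mul, ← pow_mul, ← pow_add, ← pow_add, ← pow_add] at h3
  have h4 := (Nat.pow_le_pow_iff_right (by norm_num : 1 < 2)).mp h3
  have h5 := arith m hm
  obtain ⟨a, rfl⟩ : ∃ a, m = a + 1 := ⟨m - 1, by omega⟩
  obtain ⟨Q, hQ⟩ : ∃ Q, 2 ^ (a + 1) = Q + 1 := ⟨2 ^ (a + 1) - 1, by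
    have := Nat.one_le_two_pow (n := a + 1); omega⟩
  rw [hQ] at h4 h5
  simp only [Nat.add_sub_cancel] at h4
  nlinarith

end Field

section Transport

variable {m : ℕ} {K : Type} [Field K] [Fintype K] [DecidableEq K] [Algebra (ZMod 2) K]

/-- The Maiorana–McFarland function `x y + g(y)` in coordinates. -/
def MM (φ : (Fin (2 * m) → ZMod 2) ≃ₗ[ZMod 2] K × K) (ψ : K ≃ₗ[ZMod 2] (Fin m → ZMod 2))
    (g : K → K) : (Fin (2 * m) → ZMod 2) → (Fin m → ZMod 2) :=
  fun z => ψ ((φ z).1 * (φ z).2 + g (φ z).2)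

lemma char_two (x : K) : x + x = 0 := by
  have h : (2 : ZMod 2) = 0 := by decide
  calc x + x = (2 : ZMod 2) • x := by rw [two_smul]
    _ = 0 := by rw [h, zero_smul]

lemma MM_bent (hK : Fintype.card K = 2 ^ m)
    (φ : (Fin (2 * m) → ZMod 2) ≃ₗ[ZMod 2] K × K) (ψ : K ≃ₗ[ZMod 2] (Fin m → ZMod 2))
    (g : K → K) : IsBent (MM φ ψ g) := by
  classical
  intro a ha b
  have hexp : 2 * m - m = m := by omega
  rw [hexp, ← hK]
  obtain ⟨a1, a2, hφa⟩ : ∃ a1 a2, φ a = (a1, a2) := ⟨(φ a).1, (φ a).2, rfl⟩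
  have hne : (a1, a2) ≠ (0 : K × K) := by
    rw [← hφa]
    intro h
    exact ha ((LinearEquiv.map_eq_zero_iff φ).mp h)
  set β := ψ.symm b with hβ
  -- transfer to `K × K`
  have h1 : (univ.filter (fun z => MM φ ψ g (z + a) + MM φ ψ g z = b)).card =
      (univ.filter (fun p : K × K => ((p.1 + a1) * (p.2 + a2) + g (p.2 + a2)) +
        (p.1 * p.2 + g p.2) = β)).card := by
    apply card_nbij' (fun z => φ z) (fun p => φ.symm p)
    · intro z hz
      rw [mem_coe, mem_filter] at hz ⊢
      refine ⟨mem_univ _, ?_⟩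
      have h2 := hz.2
      simp only [MM, map_add, hφa, Prod.fst_add, Prod.snd_add] at h2
      rw [hβ, ← h2, ← map_add, ← map_add, ← map_add, LinearEquiv.symm_apply_apply]
    · intro p hp
      rw [mem_coe, mem_filter] at hp ⊢
      refine ⟨mem_univ _, ?_⟩
      simp only [MM, map_add, hφa, Prod.fst_add, Prod.snd_add, LinearEquiv.apply_symm_apply]
      rw [← map_add, ← map_add, ← map_add, hp.2, hβ, LinearEquiv.apply_symm_apply]
    · intro z _; simp
    · intro p _; simp
  rw [h1]
  have hsimp : ∀ x y : K, ((x + a1) * (y + a2) + g (y + a2)) + (x * y + g y) =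
      a1 * y + x * a2 + (a1 * a2 + g (y + a2) + g y) := by
    intro x y
    have := char_two (x * y)
    calc ((x + a1) * (y + a2) + g (y + a2)) + (x * y + g y) =
        (x * y + x * y) + (a1 * y + x * a2 + (a1 * a2 + g (y + a2) + g y)) := by ring
      _ = _ := by rw [this, zero_add]
  by_cases h2 : a2 = 0
  · have h3 : a1 ≠ 0 := by
      rintro rfl
      apply hne
      rw [h2]
      rfl
    -- `y` is determined, `x` is free
    have hsimp0 : ∀ x y : K, ((x + a1) * (y + a2) + g (y + a2)) + (x * y + g y) = a1 * y := by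
      intro x y
      rw [hsimp, h2, mul_zero, mul_zero, add_zero, zero_add, add_zero, char_two, add_zero]
    have : univ.filter (fun p : K × K => ((p.1 + a1) * (p.2 + a2) + g (p.2 + a2)) +
        (p.1 * p.2 + g p.2) = β) = univ.image (fun x : K => (x, β / a1)) := by
      ext ⟨x, y⟩
      rw [mem_filter, mem_image]
      simp only [mem_univ, true_and, hsimp0]
      constructor
      · intro h
        refine ⟨x, ?_⟩
        rw [← h, mul_div_cancel_left₀ _ h3]
      · rintro ⟨x', h⟩
        rw [Prod.mk.injEq] at h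
        rw [← h.2, mul_div_cancel₀ _ h3]
    rw [this, card_image_of_injective _ (fun x x' h => (Prod.mk.injEq _ _ _ _ ▸ h).1), card_univ]
  · -- `x` is determined by `y`
    have : univ.filter (fun p : K × K => ((p.1 + a1) * (p.2 + a2) + g (p.2 + a2)) +
        (p.1 * p.2 + g p.2) = β) =
        univ.image (fun y : K => ((β - (a1 * y + (a1 * a2 + g (y + a2) + g y))) / a2, y)) := by
      ext ⟨x, y⟩
      rw [mem_filter, mem_image]
      simp only [mem_univ, true_and, hsimp]
      constructor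
      · intro h
        refine ⟨y, ?_⟩
        rw [Prod.mk.injEq]
        refine ⟨?_, rfl⟩
        rw [div_eq_iff h2, ← h]
        ring
      · rintro ⟨y', h⟩
        rw [Prod.mk.injEq] at h
        obtain ⟨h3, rfl⟩ := h
        rw [div_eq_iff h2] at h3
        rw [← h3]
        ring
    rw [this, card_image_of_injective _ (fun y y' h => (Prod.mk.injEq _ _ _ _ ▸ h).2), card_univ]

lemma MM_notMinus (hm : 1 ≤ m)
    (φ : (Fin (2 * m) → ZMod 2) ≃ₗ[ZMod 2] K × K) (ψ : K ≃ₗ[ZMod 2] (Fin m → ZMod 2))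
    (g : K → K) (hg : ∀ (L : K × K →ₗ[ZMod 2] K) (α : K), g ∉ Gs L α)
    (L : (Fin (2 * m) → ZMod 2) →ₗ[ZMod 2] (Fin m → ZMod 2)) :
    ¬ IsTypeMinus (fun x => MM φ ψ g x + L x) := by
  classical
  rintro ⟨α, h1, -⟩
  have hexp : 2 * m - m = m := by omega
  have hexp2 : 2 * m / 2 = m := by omega
  rw [hexp, hexp2, Nat.sub_self, pow_zero, sub_self, zero_add] at h1
  have h1' : (univ.filter (fun x => MM φ ψ g x + L x = α)).card = 1 := by exact_mod_cast h1
  apply hg (ψ.symm.toLinearMap ∘ₗ L ∘ₗ φ.symm.toLinearMap) (ψ.symm α)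
  rw [Gs, mem_filter]
  refine ⟨mem_univ _, ?_⟩
  rw [← h1']
  symm
  apply card_nbij' (fun z => φ z) (fun p => φ.symm p)
  · intro z hz
    rw [mem_coe, mem_filter] at hz ⊢
    refine ⟨mem_univ _, ?_⟩
    rw [← hz.2]
    simp [MM]
  · intro p hp
    rw [mem_coe, mem_filter] at hp ⊢
    refine ⟨mem_univ _, ?_⟩
    have h2 := congrArg ψ hp.2
    simp only [map_add, LinearEquiv.apply_symm_apply, LinearMap.comp_apply,
      LinearEquiv.coe_coe] at h2
    simp only [MM, LinearEquiv.apply_symm_apply, map_add]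
    exact h2
  · intro z _; simp
  · intro p _; simp

end Transport

/-- For every `m ≥ 7` there is a bent function `F : 𝔽₂^{2m} → 𝔽₂^m` for which no linear map `L`
makes `F + L` almost balanced of type (-). -/
theorem result : ∀ m : ℕ, 7 ≤ m →
    ∃ F : (Fin (2 * m) → ZMod 2) → (Fin m → ZMod 2), IsBent F ∧
      ∀ L : (Fin (2 * m) → ZMod 2) →ₗ[ZMod 2] (Fin m → ZMod 2),
        ¬ IsTypeMinus (fun x => F x + L x) := by
  classical
  intro m hm
  have hm0 : m ≠ 0 := by omega
  have : Fact (Nat.Prime 2) := ⟨Nat.prime_two⟩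
  let _ : Fintype (GaloisField 2 m) := Fintype.ofFinite _
  have hK : Fintype.card (GaloisField 2 m) = 2 ^ m := by
    rw [← Nat.card_eq_fintype_card]
    exact GaloisField.card 2 m hm0
  have hfr : Module.finrank (ZMod 2) (GaloisField 2 m) = m := GaloisField.finrank 2 hm0
  obtain ⟨g, hg⟩ := exists_g (K := GaloisField 2 m) hm hK
  have ψ : GaloisField 2 m ≃ₗ[ZMod 2] (Fin m → ZMod 2) :=
    LinearEquiv.ofFinrankEq _ _ (by rw [hfr]; simp)
  have φ : (Fin (2 * m) → ZMod 2) ≃ₗ[ZMod 2] GaloisField 2 m × GaloisField 2 m :=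
    LinearEquiv.ofFinrankEq _ _ (by rw [Module.finrank_prod, hfr]; simp; ring)
  exact ⟨MM φ ψ g, MM_bent hK φ ψ g, MM_notMinus (by omega) φ ψ g hg⟩

end Pool.Agent.Results.MP_7d7944_co.NoTypeMinus
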